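import Pool.Agent.T9h84.QD.Small

/-!
# Counting over `ℤ`: the sizes modulo `log P₁`
-/

set_option autoImplicit false

namespace Pool.Agent.T9h84.QD

open Finset
open Pool.Agent.T9h57.QD

/-- one free coordinate -/
theorem circle_one {S : Finset ℕ} {P D : ℕ} (hP : 2 ≤ P) (hD : 1 ≤ D)
    (hS : ∀ x ∈ S, D < x ∧ x ≤ P * D) {δ : ℝ} (hδ : 0 ≤ δ)
    (hL : ∀ a b : ℝ, (D : ℝ) ≤ a → a ≤ b → b ≤ P * D →
      |∑ x ∈ S, lw S x * ind (a < x ∧ (x : ℝ) ≤ b) - Real.log (b / a) / Real.log P| ≤ δ)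
    {a b : ℝ} {T : ℕ} (ha : (P : ℝ) * D ≤ a) (hab : a ≤ b) (hb : b ≤ P * a)
    (hT : b ≤ (P : ℝ) ^ T * D) :
    |∑ K ∈ Icc 1 T, ∑ x ∈ S, lw S x * ind (a < (P : ℝ) ^ K * x ∧ (P : ℝ) ^ K * x ≤ b) -
      Real.log (b / a) / Real.log P| ≤ 2 * δ := by
  have hPr : (2 : ℝ) ≤ P := by exact_mod_cast hP
  have hP0 : (0 : ℝ) < P := by linarith
  have hP1 : (1 : ℝ) ≤ P := by linarith
  have hDr : (0 : ℝ) < D := by exact_mod_cast (by omega : 0 < D)
  have ha0 : 0 < a := lt_of_lt_of_le (by positivity) ha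
  have hb0 : 0 < b := lt_of_lt_of_le ha0 hab
  have hlogP : 0 < Real.log P := Real.log_pos (by linarith)
  obtain ⟨n, hn1, hn2⟩ := exists_nat_pow_near (x := a / D) (y := (P : ℝ)) (by
    rw [le_div_iff₀ hDr]
    nlinarith) (by linarith)
  have hn1' : (P : ℝ) ^ n * D ≤ a := (le_div_iff₀ hDr).1 hn1
  have hn2' : a < (P : ℝ) ^ (n + 1) * D := (div_lt_iff₀ hDr).1 hn2
  have hpow : ∀ K, (0 : ℝ) < (P : ℝ) ^ K := fun K => by positivity
  have hn : 1 ≤ n := by
    by_contra h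
    have h0 : n = 0 := by omega
    subst h0
    simp only [zero_add, pow_one] at hn2'
    linarith
  set g : ℕ → ℝ := fun K => ∑ x ∈ S, lw S x *
    ind (a < (P : ℝ) ^ K * x ∧ (P : ℝ) ^ K * x ≤ b) with hg
  have hzero : ∀ K, (∀ x ∈ S, ¬ (a < (P : ℝ) ^ K * x ∧ (P : ℝ) ^ K * x ≤ b)) → g K = 0 := by
    intro K h
    refine sum_eq_zero fun x hx => ?_
    rw [ind_neg (h x hx), mul_zero]
  have hSr : ∀ x ∈ S, (D : ℝ) < x ∧ (x : ℝ) ≤ P * D := by
    intro x hx
    obtain ⟨h1, h2⟩ := hS x hx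
    exact ⟨by exact_mod_cast h1, by exact_mod_cast h2⟩
  have hlow : ∀ K, K < n → g K = 0 := by
    intro K hK
    refine hzero K fun x hx h => ?_
    have h1 := (hSr x hx).2
    have h2 : (P : ℝ) ^ (K + 1) ≤ (P : ℝ) ^ n := pow_le_pow_right₀ hP1 hK
    have h3 : (P : ℝ) ^ K * x ≤ (P : ℝ) ^ K * (P * D) := mul_le_mul_of_nonneg_left h1 (hpow K).le
    have h4 : (P : ℝ) ^ K * (P * D) = (P : ℝ) ^ (K + 1) * D := by ring
    have h5 : (P : ℝ) ^ (K + 1) * D ≤ (P : ℝ) ^ n * D := mul_le_mul_of_nonneg_right h2 hDr.le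
    linarith [h.1]
  have hhigh : ∀ K, n + 1 < K → g K = 0 := by
    intro K hK
    refine hzero K fun x hx h => ?_
    have h1 := (hSr x hx).1
    have h2 : (P : ℝ) ^ (n + 2) ≤ (P : ℝ) ^ K := pow_le_pow_right₀ hP1 hK
    have h3 : (P : ℝ) ^ (n + 2) * D < (P : ℝ) ^ K * x :=
      (mul_le_mul_of_nonneg_right h2 hDr.le).trans_lt (mul_lt_mul_of_pos_left h1 (hpow K))
    have h4 : (P : ℝ) ^ (n + 2) * D = P * ((P : ℝ) ^ (n + 1) * D) := by ring
    have h5 : P * a < P * ((P : ℝ) ^ (n + 1) * D) := mul_lt_mul_of_pos_left hn2' hP0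
    linarith [h.2]
  have hnT : n ≤ T := by
    by_contra h
    have h1 : (P : ℝ) ^ (T + 1) ≤ (P : ℝ) ^ n := pow_le_pow_right₀ hP1 (by omega)
    have h2 : (P : ℝ) ^ T * D < (P : ℝ) ^ (T + 1) * D := by
      refine mul_lt_mul_of_pos_right ?_ hDr
      rw [pow_succ]
      nlinarith [hpow T]
    have h3 : (P : ℝ) ^ (T + 1) * D ≤ (P : ℝ) ^ n * D := mul_le_mul_of_nonneg_right h1 hDr.le
    linarith
  have hn1T : T < n + 1 → g (n + 1) = 0 := by
    intro h
    refine hzero (n + 1) fun x hx h' => ?_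
    have h1 := (hSr x hx).1
    have h2 : (P : ℝ) ^ T ≤ (P : ℝ) ^ (n + 1) := pow_le_pow_right₀ hP1 (by omega)
    have h3 : (P : ℝ) ^ T * D < (P : ℝ) ^ (n + 1) * x :=
      (mul_le_mul_of_nonneg_right h2 hDr.le).trans_lt (mul_lt_mul_of_pos_left h1 (hpow _))
    linarith [h'.2]
  have hsum : ∑ K ∈ Icc 1 T, g K = g n + g (n + 1) := by
    by_cases h : n + 1 ≤ T
    · rw [← sum_pair (show n ≠ n + 1 by omega)]
      symm
      refine sum_subset ?_ ?_
      · intro K hK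
        rw [mem_insert, mem_singleton] at hK
        rw [mem_Icc]
        omega
      · intro K _ hK
        rw [mem_insert, mem_singleton, not_or] at hK
        rcases lt_or_gt_of_ne hK.1 with h1 | h1
        · exact hlow K h1
        · exact hhigh K (by omega)
    · rw [hn1T (by omega), add_zero]
      refine sum_eq_single n ?_ ?_
      · intro K hK hKn
        rw [mem_Icc] at hK
        exact hlow K (by omega)
      · intro h1
        rw [mem_Icc] at h1
        omega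
  rw [hsum]
  have ea : (D : ℝ) ≤ a / (P : ℝ) ^ n := by
    rw [le_div_iff₀ (hpow n), mul_comm]
    exact hn1'
  have eP : (P : ℝ) ^ (n + 1) = (P : ℝ) ^ n * P := pow_succ _ _
  by_cases hcase : b ≤ (P : ℝ) ^ (n + 1) * D
  · have h1 : g (n + 1) = 0 := by
      refine hzero (n + 1) fun x hx h => ?_
      have h2 := mul_lt_mul_of_pos_left (hSr x hx).1 (hpow (n + 1))
      linarith [h.2]
    have h2 : g n = ∑ x ∈ S, lw S x * ind (a / (P : ℝ) ^ n < x ∧ (x : ℝ) ≤ b / (P : ℝ) ^ n) := by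
      refine sum_congr rfl fun x _ => ?_
      congr 1
      refine ind_congr ?_
      rw [div_lt_iff₀ (hpow n), le_div_iff₀ (hpow n), mul_comm (x : ℝ)]
    have h3 := hL (a / (P : ℝ) ^ n) (b / (P : ℝ) ^ n) ea
      (div_le_div_of_nonneg_right hab (hpow n).le) (by
        rw [div_le_iff₀ (hpow n)]
        rw [eP] at hcase
        linarith)
    rw [← h2, div_div_div_cancel_right₀ (hpow n).ne'] at h3
    rw [h1, add_zero]
    linarith
  · push Not at hcase
    have h1 : g (n + 1) = ∑ x ∈ S, lw S x *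
        ind ((D : ℝ) < x ∧ (x : ℝ) ≤ b / (P : ℝ) ^ (n + 1)) := by
      refine sum_congr rfl fun x hx => ?_
      congr 1
      refine ind_congr ?_
      rw [le_div_iff₀ (hpow (n + 1)), mul_comm (x : ℝ)]
      constructor
      · rintro ⟨_, h⟩
        exact ⟨(hSr x hx).1, h⟩
      · rintro ⟨h4, h⟩
        exact ⟨hn2'.trans (mul_lt_mul_of_pos_left h4 (hpow (n + 1))), h⟩
    have h2 : g n = ∑ x ∈ S, lw S x * ind (a / (P : ℝ) ^ n < x ∧ (x : ℝ) ≤ P * D) := by
      refine sum_congr rfl fun x hx => ?_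
      congr 1
      refine ind_congr ?_
      rw [div_lt_iff₀ (hpow n), mul_comm (x : ℝ)]
      constructor
      · rintro ⟨h, _⟩
        exact ⟨h, (hSr x hx).2⟩
      · rintro ⟨h, h4⟩
        refine ⟨h, ?_⟩
        have h5 := mul_le_mul_of_nonneg_left h4 (hpow n).le
        rw [eP] at hcase
        linarith
    have h3 := hL (a / (P : ℝ) ^ n) (P * D) ea (by
      rw [div_le_iff₀ (hpow n)]
      rw [eP] at hn2'
      linarith) le_rfl
    have h4 := hL D (b / (P : ℝ) ^ (n + 1)) le_rfl (by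
      rw [le_div_iff₀ (hpow (n + 1)), mul_comm]
      exact hcase.le) (by
      rw [div_le_iff₀ (hpow (n + 1))]
      have h5 := mul_le_mul_of_nonneg_left hn2'.le hP0.le
      linarith)
    rw [← h2] at h3
    rw [← h1] at h4
    have h5 : Real.log (b / a) / Real.log P = Real.log (P * D / (a / (P : ℝ) ^ n)) / Real.log P +
        Real.log (b / (P : ℝ) ^ (n + 1) / D) / Real.log P := by
      rw [← add_div, ← Real.log_mul (by positivity) (by positivity)]
      congr 2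
      rw [eP]
      field_simp
    rw [h5]
    rw [abs_le] at h3 h4 ⊢
    constructor <;> linarith [h3.1, h3.2, h4.1, h4.2]

theorem circleOf : CircleOf := by
  intro hLen n M P₁ hn hM hP
  obtain ⟨C, D₀, hC⟩ := hLen M P₁ hM hP
  obtain ⟨m, hm⟩ := exists_nat_gt C
  refine ⟨2 * |C|, D₀ + m + 1, fun D hD S hS a b T ha hab hb hT => ?_⟩
  obtain ⟨n, rfl⟩ : ∃ k, n = k + 1 := ⟨n - 1, by omega⟩
  have hD1 : 1 ≤ D := by omega
  have hDr : (0 : ℝ) < D := by exact_mod_cast (by omega : 0 < D)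
  have hPr : (2 : ℝ) ≤ P₁ := by exact_mod_cast hP
  have hlogP : 0 < Real.log P₁ := Real.log_pos (by linarith)
  have hSm : ∀ x ∈ S, D < x ∧ x ≤ P₁ * D := by
    intro x hx
    rw [hS, Kp, mem_filter, mem_Ioc] at hx
    exact hx.1
  have hL := hC D (by omega) S hS
  have hmass : ∑ x ∈ S, lw S x = 1 := by
    apply sum_lw
    rcases (Zs_nonneg S).lt_or_eq with h | h
    · exact h
    · exfalso
      have h1 := hL D (P₁ * D) le_rfl (by nlinarith) le_rfl
      have h2 : ∑ x ∈ S, lw S x * ind ((D : ℝ) < x ∧ (x : ℝ) ≤ P₁ * D) = 0 := by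
        refine sum_eq_zero fun x _ => ?_
        rw [lw, ← h, div_zero, zero_mul]
      rw [h2, mul_div_assoc, div_self hDr.ne', mul_one, div_self hlogP.ne', zero_sub, abs_neg,
        abs_one, le_div_iff₀ hDr, one_mul] at h1
      have h3 : (m : ℝ) < D := by exact_mod_cast (by omega : m < D)
      linarith
  set c := Real.log (b / a) / Real.log P₁ with hc
  set δ := |C| / D with hδ
  have hδ0 : 0 ≤ δ := by positivity
  have hL' : ∀ a b : ℝ, (D : ℝ) ≤ a → a ≤ b → b ≤ P₁ * D →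
      |∑ x ∈ S, lw S x * ind (a < x ∧ (x : ℝ) ≤ b) - Real.log (b / a) / Real.log P₁| ≤ δ := by
    intro a b h1 h2 h3
    refine (hL a b h1 h2 h3).trans ?_
    rw [hδ]
    gcongr
    exact le_abs_self C
  have e1 : ∑ K ∈ Icc 1 T, ex (n + 1) S (fun v => ind (a < (P₁ ^ K * ∏ i, v i : ℕ) ∧
        ((P₁ ^ K * ∏ i, v i : ℕ) : ℝ) ≤ b)) =
      ex n S (fun v => ∑ K ∈ Icc 1 T, ∑ x ∈ S, lw S x *
        ind (a < (P₁ ^ K * (x * ∏ i, v i) : ℕ) ∧
        ((P₁ ^ K * (x * ∏ i, v i) : ℕ) : ℝ) ≤ b)) := by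
    rw [ex_sum]
    refine sum_congr rfl fun K _ => ?_
    rw [ex_succ]
    refine ex_congr fun v _ => sum_congr rfl fun x _ => ?_
    rw [Fin.prod_univ_succ]
    simp only [Fin.cons_zero, Fin.cons_succ]
  rw [e1]
  have e2 : ∀ v : Fin n → ℕ, (∀ i, v i ∈ S) → |∑ K ∈ Icc 1 T, ∑ x ∈ S, lw S x *
        ind (a < (P₁ ^ K * (x * ∏ i, v i) : ℕ) ∧
        ((P₁ ^ K * (x * ∏ i, v i) : ℕ) : ℝ) ≤ b) - c| ≤ 2 * δ := by
    intro v hv
    set V := ∏ i, v i with hV
    have hV1 : D ^ n ≤ V := by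
      calc D ^ n = ∏ _i : Fin n, D := by rw [prod_const, card_univ, Fintype.card_fin]
        _ ≤ V := prod_le_prod' fun i _ => (hSm _ (hv i)).1.le
    have hV2 : V ≤ (P₁ * D) ^ n := by
      calc V ≤ ∏ _i : Fin n, (P₁ * D) := prod_le_prod' fun i _ => (hSm _ (hv i)).2
        _ = (P₁ * D) ^ n := by rw [prod_const, card_univ, Fintype.card_fin]
    have hV1r : (D : ℝ) ^ n ≤ V := by exact_mod_cast hV1
    have hV2r : (V : ℝ) ≤ ((P₁ : ℝ) * D) ^ n := by exact_mod_cast hV2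
    have hV0 : (0 : ℝ) < V := lt_of_lt_of_le (by positivity) hV1r
    have h1 := circle_one hP hD1 hSm hδ0 hL' (a := a / V) (b := b / V) (T := T) (by
      rw [le_div_iff₀ hV0]
      refine le_trans ?_ ha
      calc (P₁ : ℝ) * D * V ≤ (P₁ : ℝ) * D * ((P₁ : ℝ) * D) ^ n :=
            mul_le_mul_of_nonneg_left hV2r (by positivity)
        _ = 1 * ((P₁ : ℝ) * D) ^ (n + 1) := by ring
        _ ≤ (P₁ : ℝ) * ((P₁ : ℝ) * D) ^ (n + 1) :=
            mul_le_mul_of_nonneg_right (by linarith) (by positivity))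
      (div_le_div_of_nonneg_right hab hV0.le) (by
      rw [← mul_div_assoc]
      exact div_le_div_of_nonneg_right hb hV0.le) (by
      rw [div_le_iff₀ hV0]
      refine hT.trans ?_
      calc (P₁ : ℝ) ^ T * (D : ℝ) ^ (n + 1) = (P₁ : ℝ) ^ T * D * (D : ℝ) ^ n := by ring
        _ ≤ _ := mul_le_mul_of_nonneg_left hV1r (by positivity))
    rw [div_div_div_cancel_right₀ hV0.ne'] at h1
    refine le_trans (le_of_eq ?_) h1
    congr 2
    refine sum_congr rfl fun K _ => sum_congr rfl fun x _ => ?_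
    congr 1
    refine ind_congr ?_
    rw [div_lt_iff₀ hV0, le_div_iff₀ hV0]
    push_cast
    rw [← mul_assoc]
  have e3 : ex n S (fun v => ∑ K ∈ Icc 1 T, ∑ x ∈ S, lw S x *
        ind (a < (P₁ ^ K * (x * ∏ i, v i) : ℕ) ∧
        ((P₁ ^ K * (x * ∏ i, v i) : ℕ) : ℝ) ≤ b)) - c =
      ex n S (fun v => ∑ K ∈ Icc 1 T, ∑ x ∈ S, lw S x *
        ind (a < (P₁ ^ K * (x * ∏ i, v i) : ℕ) ∧
        ((P₁ ^ K * (x * ∏ i, v i) : ℕ) : ℝ) ≤ b) - c) := by
    rw [ex_sub, ex_const hmass]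
  rw [e3]
  refine (ex_abs _ _ _).trans ((ex_mono e2).trans (le_of_eq ?_))
  rw [ex_const hmass, hδ]
  ring

end Pool.Agent.T9h84.QD
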