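import Pool.Agent.T9h57.QD.Spec2
import Pool.Agent.T9h42.GF.C2

/-!
# Counting over `ℤ`: divisors, divisibility of products, coprime products
-/

set_option autoImplicit false

namespace Pool.Agent.T9h84.QD

open Finset
open Pool.Agent.T9h57.QD
open Pool.Agent.T9h42.GF (sum_pi_succ)

/-! ### indicators and expectations -/

theorem ind_nonneg (p : Prop) : 0 ≤ ind p := by
  unfold ind
  split_ifs <;> norm_num

theorem ind_le_one (p : Prop) : ind p ≤ 1 := by
  unfold ind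
  split_ifs <;> norm_num

theorem ind_pos {p : Prop} (h : p) : ind p = 1 := by
  unfold ind
  rw [if_pos h]

theorem ind_neg {p : Prop} (h : ¬ p) : ind p = 0 := by
  unfold ind
  rw [if_neg h]

theorem ind_mono {p q : Prop} (h : p → q) : ind p ≤ ind q := by
  by_cases hp : p
  · rw [ind_pos hp, ind_pos (h hp)]
  · rw [ind_neg hp]
    exact ind_nonneg q

theorem ind_congr {p q : Prop} (h : p ↔ q) : ind p = ind q :=
  le_antisymm (ind_mono h.1) (ind_mono h.2)

theorem ind_mul (p q : Prop) : ind p * ind q = ind (p ∧ q) := by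
  by_cases hp : p
  · by_cases hq : q
    · rw [ind_pos hp, ind_pos hq, ind_pos ⟨hp, hq⟩, one_mul]
    · rw [ind_neg hq, ind_neg (fun h : p ∧ q => hq h.2), mul_zero]
  · rw [ind_neg hp, ind_neg (fun h : p ∧ q => hp h.1), zero_mul]

theorem Zs_nonneg (S : Finset ℕ) : 0 ≤ Zs S := sum_nonneg fun _ _ => by positivity

theorem lw_nonneg (S : Finset ℕ) (x : ℕ) : 0 ≤ lw S x :=
  div_nonneg (by positivity) (Zs_nonneg S)

theorem sum_lw {S : Finset ℕ} (h : 0 < Zs S) : ∑ x ∈ S, lw S x = 1 := by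
  unfold lw
  rw [← sum_div]
  exact div_self h.ne'

theorem Zs_pos {S : Finset ℕ} (h : S.Nonempty) (h0 : ∀ x ∈ S, 0 < x) : 0 < Zs S := by
  refine sum_pos (fun x hx => ?_) h
  have : (0 : ℝ) < x := by exact_mod_cast h0 x hx
  positivity

theorem Kp_pos {M a b x : ℕ} (h : x ∈ Kp M a b) : 0 < x := by
  unfold Kp at h
  rw [mem_filter, mem_Ioc] at h
  omega

theorem sum_lw_Kp {M a b : ℕ} (h : (Kp M a b).Nonempty) :
    ∑ x ∈ Kp M a b, lw (Kp M a b) x = 1 :=
  sum_lw (Zs_pos h fun _ hx => Kp_pos hx)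

theorem ex_succ (n : ℕ) (S : Finset ℕ) (f : (Fin (n + 1) → ℕ) → ℝ) :
    ex (n + 1) S f = ex n S (fun v => ∑ a ∈ S, lw S a * f (Fin.cons a v)) := by
  unfold ex
  rw [sum_pi_succ]
  refine sum_congr rfl fun v _ => ?_
  rw [mul_sum]
  refine sum_congr rfl fun a _ => ?_
  rw [Fin.prod_univ_succ]
  simp only [Fin.cons_zero, Fin.cons_succ]
  ring

theorem ex_zero (S : Finset ℕ) (f : (Fin 0 → ℕ) → ℝ) : ex 0 S f = f default := by
  unfold ex
  rw [Fintype.piFinset_of_isEmpty, Finset.univ_unique, sum_singleton]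
  simp only [univ_eq_empty, prod_empty, one_mul]
  exact congrArg f (Subsingleton.elim _ _)

theorem ex_mono {n : ℕ} {S : Finset ℕ} {f g : (Fin n → ℕ) → ℝ}
    (h : ∀ v, (∀ i, v i ∈ S) → f v ≤ g v) : ex n S f ≤ ex n S g := by
  unfold ex
  refine sum_le_sum fun v hv => ?_
  rw [Fintype.mem_piFinset] at hv
  exact mul_le_mul_of_nonneg_left (h v hv) (prod_nonneg fun i _ => lw_nonneg _ _)

theorem ex_congr {n : ℕ} {S : Finset ℕ} {f g : (Fin n → ℕ) → ℝ}
    (h : ∀ v, (∀ i, v i ∈ S) → f v = g v) : ex n S f = ex n S g :=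
  le_antisymm (ex_mono fun v hv => (h v hv).le) (ex_mono fun v hv => (h v hv).ge)

theorem ex_nonneg {n : ℕ} {S : Finset ℕ} {f : (Fin n → ℕ) → ℝ}
    (h : ∀ v, (∀ i, v i ∈ S) → 0 ≤ f v) : 0 ≤ ex n S f := by
  unfold ex
  refine sum_nonneg fun v hv => ?_
  rw [Fintype.mem_piFinset] at hv
  exact mul_nonneg (prod_nonneg fun i _ => lw_nonneg _ _) (h v hv)

theorem ex_sum {ι : Type} (s : Finset ι) (n : ℕ) (S : Finset ℕ) (f : ι → (Fin n → ℕ) → ℝ) :
    ex n S (fun v => ∑ i ∈ s, f i v) = ∑ i ∈ s, ex n S (f i) := by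
  unfold ex
  rw [sum_comm]
  refine sum_congr rfl fun v _ => ?_
  rw [mul_sum]

theorem ex_const_mul (n : ℕ) (S : Finset ℕ) (c : ℝ) (f : (Fin n → ℕ) → ℝ) :
    ex n S (fun v => c * f v) = c * ex n S f := by
  unfold ex
  rw [mul_sum]
  refine sum_congr rfl fun v _ => ?_
  ring

theorem ex_sub (n : ℕ) (S : Finset ℕ) (f g : (Fin n → ℕ) → ℝ) :
    ex n S (fun v => f v - g v) = ex n S f - ex n S g := by
  unfold ex
  rw [← sum_sub_distrib]
  refine sum_congr rfl fun v _ => ?_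
  ring

theorem ex_abs (n : ℕ) (S : Finset ℕ) (f : (Fin n → ℕ) → ℝ) :
    |ex n S f| ≤ ex n S (fun v => |f v|) := by
  unfold ex
  refine (abs_sum_le_sum_abs _ _).trans (le_of_eq (sum_congr rfl fun v _ => ?_))
  rw [abs_mul, abs_of_nonneg (prod_nonneg fun i _ => lw_nonneg _ _)]

/-- products of functions of the coordinates. -/
theorem ex_prod (n : ℕ) (S : Finset ℕ) (f : Fin n → ℕ → ℝ) :
    ex n S (fun v => ∏ i, f i (v i)) = ∏ i, ∑ a ∈ S, lw S a * f i a := by
  unfold ex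
  rw [prod_univ_sum]
  refine sum_congr rfl fun v _ => ?_
  rw [prod_mul_distrib]

theorem ex_coord {n : ℕ} {S : Finset ℕ} (h : ∑ x ∈ S, lw S x = 1) (i : Fin n) (f : ℕ → ℝ) :
    ex n S (fun v => f (v i)) = ∑ a ∈ S, lw S a * f a := by
  have h1 : ∀ v : Fin n → ℕ, f (v i) = ∏ l, (if l = i then f (v l) else 1) := by
    intro v
    rw [prod_ite_eq' univ i (fun l => f (v l)), if_pos (mem_univ i)]
  simp_rw [h1]
  rw [ex_prod n S (fun l a => if l = i then f a else 1), prod_eq_single i]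
  · simp
  · intro l _ hl
    simp only [if_neg hl, mul_one]
    exact h
  · intro h2
    exact absurd (mem_univ i) h2

theorem ex_const {n : ℕ} {S : Finset ℕ} (h : ∑ x ∈ S, lw S x = 1) (c : ℝ) :
    ex n S (fun _ => c) = c := by
  have h1 : ex n S (fun _ => c) = c * ex n S (fun _ => 1) := by
    rw [← ex_const_mul]
    simp
  have h2 := ex_prod n S (fun _ _ => 1)
  simp only [prod_const_one, mul_one, h] at h2
  rw [h1, h2, mul_one]

/-! ### (b) -/

theorem div_mul_le {p m : ℕ} (hp : p.Prime) (hm : m ≠ 0) :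
    (p * m).divisors.card ≤ 2 * m.divisors.card := by
  classical
  have h4 : (p * m).divisors ⊆ m.divisors ∪ m.divisors.image (fun g => p * g) := by
    intro g hg
    rw [Nat.mem_divisors] at hg
    rw [mem_union, mem_image]
    by_cases hd : p ∣ g
    · right
      obtain ⟨c, rfl⟩ := hd
      exact ⟨c, Nat.mem_divisors.2 ⟨Nat.dvd_of_mul_dvd_mul_left hp.pos hg.1, hm⟩, rfl⟩
    · left
      rw [Nat.mem_divisors]
      exact ⟨(Nat.Coprime.dvd_mul_left ((Nat.Prime.coprime_iff_not_dvd hp).2 hd).symm).1 hg.1, hm⟩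
  have h5 := card_le_card h4
  have h6 := card_union_le m.divisors (m.divisors.image (fun g => p * g))
  have h7 := card_image_le (s := m.divisors) (f := fun g => p * g)
  omega

theorem roughTau : RoughTau := by
  intro w n hw
  induction n using Nat.strong_induction_on with
  | _ n ih =>
    intro h0 hr
    by_cases h1 : n = 1
    · subst h1
      simp
    · obtain ⟨p, hp, m, rfl⟩ := Nat.exists_prime_and_dvd h1
      have hm : m ≠ 0 := right_ne_zero_of_mul h0
      have hlt : m < p * m := by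
        have := hp.two_le
        nlinarith [Nat.pos_of_ne_zero hm]
      have h2 := ih m hlt hm (fun q hq hqm => hr q hq (hqm.trans (dvd_mul_left _ _)))
      have h3 := div_mul_le hp hm
      have h4 : Nat.log w m + 1 ≤ Nat.log w (p * m) := by
        rw [← Nat.log_mul_base (by omega) hm]
        exact Nat.log_mono_right (by
          rw [mul_comm]
          exact Nat.mul_le_mul_right _ (hr p hp (dvd_mul_right _ _)))
      calc (p * m).divisors.card ≤ 2 * m.divisors.card := h3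
        _ ≤ 2 * 2 ^ Nat.log w m := Nat.mul_le_mul_left _ h2
        _ = 2 ^ (Nat.log w m + 1) := by rw [pow_succ, mul_comm]
        _ ≤ _ := Nat.pow_le_pow_right (by norm_num) h4

/-! ### (c) -/

theorem divProdZ : DivProdZ := by
  intro S h B j hh hB
  induction j generalizing h with
  | zero =>
    intro _
    rw [ex_zero]
    simp only [univ_eq_empty, prod_empty, pow_zero, mul_one]
    by_cases h1 : h = 1
    · rw [h1]
      simpa using ind_le_one _
    · rw [ind_neg (fun h2 => h1 (Nat.dvd_one.1 h2))]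
      positivity
  | succ j ih =>
    intro hS
    rw [ex_succ]
    have h1 : ∀ v : Fin j → ℕ, ∑ a ∈ S, lw S a * ind (h ∣ ∏ i, (Fin.cons a v : Fin (j + 1) → ℕ) i) ≤
        ∑ g ∈ h.divisors, (∑ a ∈ S, lw S a * ind (g ∣ a)) * ind (h / g ∣ ∏ i, v i) := by
      intro v
      simp_rw [sum_mul]
      rw [sum_comm]
      refine sum_le_sum fun a _ => ?_
      simp_rw [mul_assoc]
      rw [← mul_sum]
      refine mul_le_mul_of_nonneg_left ?_ (lw_nonneg _ _)
      rw [Fin.prod_univ_succ]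
      simp only [Fin.cons_zero, Fin.cons_succ]
      by_cases h2 : h ∣ a * ∏ i, v i
      · rw [ind_pos h2]
        have h3 : Nat.gcd h a ∣ h := Nat.gcd_dvd_left _ _
        have h4 : h / Nat.gcd h a ∣ ∏ i, v i := by
          have h5 : 0 < Nat.gcd h a := Nat.gcd_pos_of_pos_left _ hh
          have h6 : Nat.Coprime (h / Nat.gcd h a) (a / Nat.gcd h a) :=
            Nat.coprime_div_gcd_div_gcd h5
          refine h6.dvd_of_dvd_mul_left ?_
          have h7 : Nat.gcd h a * (h / Nat.gcd h a) ∣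
              Nat.gcd h a * (a / Nat.gcd h a * ∏ i, v i) := by
            rw [Nat.mul_div_cancel' h3, ← mul_assoc,
              Nat.mul_div_cancel' (Nat.gcd_dvd_right h a)]
            exact h2
          exact Nat.dvd_of_mul_dvd_mul_left h5 h7
        calc (1 : ℝ) = ind (Nat.gcd h a ∣ a) * ind (h / Nat.gcd h a ∣ ∏ i, v i) := by
              rw [ind_pos (Nat.gcd_dvd_right h a), ind_pos h4, mul_one]
          _ ≤ _ := single_le_sum (f := fun g => ind (g ∣ a) * ind (h / g ∣ ∏ i, v i))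
              (fun g _ => mul_nonneg (ind_nonneg _) (ind_nonneg _))
              (Nat.mem_divisors.2 ⟨h3, hh.ne'⟩)
      · rw [ind_neg h2]
        exact sum_nonneg fun g _ => mul_nonneg (ind_nonneg _) (ind_nonneg _)
    refine (ex_mono fun v _ => h1 v).trans ?_
    rw [ex_sum]
    have h2 : ∀ g ∈ h.divisors, ex j S (fun v => (∑ a ∈ S, lw S a * ind (g ∣ a)) *
        ind (h / g ∣ ∏ i, v i)) ≤ (h.divisors.card : ℝ) ^ j * B ^ (j + 1) / h := by
      intro g hg
      rw [Nat.mem_divisors] at hg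
      rw [ex_const_mul]
      have hg0 : 0 < g := Nat.pos_of_dvd_of_pos hg.1 hh
      have hq0 : 0 < h / g := Nat.div_pos (Nat.le_of_dvd hh hg.1) hg0
      have hdv : h / g ∣ h := Nat.div_dvd_of_dvd hg.1
      have h3 := ih (h / g) hq0 (fun g' hg' => hS g' (hg'.trans hdv))
      have h4 := hS g hg.1
      have h5 : ((h / g).divisors.card : ℝ) ≤ (h.divisors.card : ℝ) := by
        exact_mod_cast card_le_card (Nat.divisors_subset_of_dvd hh.ne' hdv)
      have hgr : (0 : ℝ) < g := by exact_mod_cast hg0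
      have hqr : (0 : ℝ) < ((h / g : ℕ) : ℝ) := by exact_mod_cast hq0
      have h6 : (g : ℝ) * ((h / g : ℕ) : ℝ) = h := by
        exact_mod_cast Nat.mul_div_cancel' hg.1
      have h7 : ex j S (fun v => ind (h / g ∣ ∏ i, v i)) ≤
          (h.divisors.card : ℝ) ^ j * B ^ j / ((h / g : ℕ) : ℝ) := by
        refine h3.trans ?_
        gcongr
      calc (∑ a ∈ S, lw S a * ind (g ∣ a)) * ex j S (fun v => ind (h / g ∣ ∏ i, v i)) ≤
            (B / g) * ((h.divisors.card : ℝ) ^ j * B ^ j / ((h / g : ℕ) : ℝ)) :=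
            mul_le_mul h4 h7 (ex_nonneg fun v _ => ind_nonneg _) (by positivity)
        _ = (h.divisors.card : ℝ) ^ j * B ^ (j + 1) / ((g : ℝ) * ((h / g : ℕ) : ℝ)) := by
            rw [pow_succ]
            field_simp
        _ = _ := by rw [h6]
    refine (sum_le_sum h2).trans (le_of_eq ?_)
    rw [sum_const, nsmul_eq_mul]
    ring

/-! ### (i) -/

/-- one pair of coordinates -/
theorem pair_bound {M A N C D w : ℕ} {X Y : Finset ℕ} (hX : X = Kp M A N)
    (hw : 1 ≤ w) (hMw : ∀ p, p.Prime → p ≤ w → p ∣ M)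
    (hC : 1 ≤ C) (hCD : C ≤ D)
    (h1 : ∀ g : ℕ, 0 < g → ∑ x ∈ X, lw X x * ind (g ∣ x) ≤ C / g ∧
      (C * g ≤ D → ∑ x ∈ X, lw X x * ind (g ∣ x) ≤ 2 / g))
    (h2 : ∀ g : ℕ, 0 < g → ∑ x ∈ Y, lw Y x * ind (g ∣ x) ≤ C / g ∧
      (C * g ≤ D → ∑ x ∈ Y, lw Y x * ind (g ∣ x) ≤ 2 / g)) :
    ∑ a ∈ X, lw X a * ∑ b ∈ Y, lw Y b * ind (¬ Nat.Coprime a b) ≤
      4 / w + (C : ℝ) ^ 2 / (D / C : ℕ) := by
  classical
  have hDC : 1 ≤ D / C := (Nat.one_le_div_iff (by omega)).2 hCD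
  have e1 : ∀ a ∈ X, ∑ b ∈ Y, lw Y b * ind (¬ Nat.Coprime a b) ≤
      ∑ g ∈ Ioc w N, ind (g ∣ a) * ∑ b ∈ Y, lw Y b * ind (g ∣ b) := by
    intro a ha
    simp_rw [mul_sum]
    rw [sum_comm]
    refine sum_le_sum fun b hb => ?_
    have e2 : ∀ g, ind (g ∣ a) * (lw Y b * ind (g ∣ b)) =
        lw Y b * (ind (g ∣ a) * ind (g ∣ b)) := fun g => by ring
    simp_rw [e2]
    rw [← mul_sum]
    refine mul_le_mul_of_nonneg_left ?_ (lw_nonneg _ _)
    by_cases h : Nat.Coprime a b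
    · rw [ind_neg (fun h3 => h3 h)]
      exact sum_nonneg fun g _ => mul_nonneg (ind_nonneg _) (ind_nonneg _)
    · rw [ind_pos h]
      obtain ⟨p, hp, hpa, hpb⟩ := Nat.Prime.not_coprime_iff_dvd.1 h
      rw [hX, Kp, mem_filter, mem_Ioc] at ha
      have hpM : ¬ p ∣ M := by
        intro h4
        have h5 := Nat.dvd_gcd hpa h4
        rw [Nat.Coprime] at ha
        rw [ha.2] at h5
        exact hp.one_lt.ne' (Nat.dvd_one.1 h5)
      have hpw : w < p := by
        by_contra h4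
        exact hpM (hMw p hp (by omega))
      have hpN : p ≤ N := (Nat.le_of_dvd (by omega) hpa).trans ha.1.2
      calc (1 : ℝ) = ind (p ∣ a) * ind (p ∣ b) := by rw [ind_pos hpa, ind_pos hpb, mul_one]
        _ ≤ _ := single_le_sum (f := fun g => ind (g ∣ a) * ind (g ∣ b))
            (fun g _ => mul_nonneg (ind_nonneg _) (ind_nonneg _))
            (mem_Ioc.2 ⟨hpw, hpN⟩)
  have e3 : ∑ a ∈ X, lw X a * ∑ b ∈ Y, lw Y b * ind (¬ Nat.Coprime a b) ≤
      ∑ g ∈ Ioc w N, (∑ a ∈ X, lw X a * ind (g ∣ a)) * ∑ b ∈ Y, lw Y b * ind (g ∣ b) := by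
    calc _ ≤ ∑ a ∈ X, lw X a * ∑ g ∈ Ioc w N, ind (g ∣ a) * ∑ b ∈ Y, lw Y b * ind (g ∣ b) :=
          sum_le_sum fun a ha => mul_le_mul_of_nonneg_left (e1 a ha) (lw_nonneg _ _)
      _ = _ := by
          simp_rw [sum_mul (s := X), mul_sum (s := Ioc w N)]
          rw [sum_comm]
          refine sum_congr rfl fun g _ => sum_congr rfl fun a _ => ?_
          ring
  refine e3.trans ?_
  have e4 : ∀ g ∈ Ioc w N, (∑ a ∈ X, lw X a * ind (g ∣ a)) * ∑ b ∈ Y, lw Y b * ind (g ∣ b) ≤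
      4 * ((g : ℝ) ^ 2)⁻¹ + (if D / C < g then (C : ℝ) ^ 2 * ((g : ℝ) ^ 2)⁻¹ else 0) := by
    intro g hg
    rw [mem_Ioc] at hg
    have hg0 : 0 < g := by omega
    have hgr : (0 : ℝ) < g := by exact_mod_cast hg0
    obtain ⟨h3, h4⟩ := h1 g hg0
    obtain ⟨h5, h6⟩ := h2 g hg0
    have hn1 : 0 ≤ ∑ b ∈ Y, lw Y b * ind (g ∣ b) :=
      sum_nonneg fun b _ => mul_nonneg (lw_nonneg _ _) (ind_nonneg _)
    by_cases h7 : D / C < g
    · rw [if_pos h7]
      have h8 := mul_le_mul h3 h5 hn1 (by positivity)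
      refine h8.trans ?_
      have h9 : (C : ℝ) / g * (C / g) = (C : ℝ) ^ 2 * ((g : ℝ) ^ 2)⁻¹ := by
        field_simp
      rw [h9]
      have : (0 : ℝ) ≤ 4 * ((g : ℝ) ^ 2)⁻¹ := by positivity
      linarith
    · rw [if_neg h7]
      have h10 : C * g ≤ D := by
        rw [not_lt] at h7
        calc C * g ≤ C * (D / C) := Nat.mul_le_mul_left _ h7
          _ ≤ D := Nat.mul_div_le _ _
      have h8 := mul_le_mul (h4 h10) (h6 h10) hn1 (by positivity)
      refine h8.trans (le_of_eq ?_)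
      field_simp
      norm_num
  refine (sum_le_sum e4).trans ?_
  rw [sum_add_distrib]
  refine add_le_add ?_ ?_
  · rw [← mul_sum]
    by_cases hwN : w ≤ N
    · have h3 := sum_Ioc_inv_sq_le_sub (α := ℝ) (k := w) (n := N) (by omega) hwN
      have h4 : (0 : ℝ) ≤ (N : ℝ)⁻¹ := by positivity
      rw [div_eq_mul_inv]
      linarith
    · rw [Ioc_eq_empty (by omega), sum_empty, mul_zero]
      positivity
  · rw [← sum_filter]
    by_cases hwN : D / C ≤ N
    · have h3 := sum_Ioc_inv_sq_le_sub (α := ℝ) (k := D / C) (n := N) (by omega) hwN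
      have h4 : (0 : ℝ) ≤ (N : ℝ)⁻¹ := by positivity
      have h5 : ∑ g ∈ (Ioc w N).filter (fun g => D / C < g), (C : ℝ) ^ 2 * ((g : ℝ) ^ 2)⁻¹ ≤
          ∑ g ∈ Ioc (D / C) N, (C : ℝ) ^ 2 * ((g : ℝ) ^ 2)⁻¹ := by
        refine sum_le_sum_of_subset_of_nonneg ?_ fun g _ _ => by positivity
        intro g hg
        rw [mem_filter, mem_Ioc] at hg
        rw [mem_Ioc]
        exact ⟨hg.2, hg.1.2⟩
      refine h5.trans ?_
      rw [← mul_sum, div_eq_mul_inv]
      refine mul_le_mul_of_nonneg_left ?_ (by positivity)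
      linarith
    · rw [filter_eq_empty_iff.2 (fun g hg => by
        rw [mem_Ioc] at hg
        omega), sum_empty]
      positivity

theorem nonCopOf : NonCopOf := by
  intro hDX j k e₀ ε he₀ hε
  set J : ℝ := (j : ℝ) * k with hJ
  have hJ0 : 0 ≤ J := by positivity
  obtain ⟨w, hw⟩ := exists_nat_gt (8 * J / ε)
  refine ⟨w + 1, ?_⟩
  intro M R₁ R₂ H hM hMw hR₁ hR₂ hH
  obtain ⟨C₁, D₁, h1⟩ := hDX M R₁ hM hR₁
  obtain ⟨C₂, D₂, h2⟩ := hDX M R₂ hM hR₂
  set C := C₁ + C₂ + 1 with hC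
  obtain ⟨m, hm⟩ := exists_nat_gt (2 * J * (C : ℝ) ^ 2 / ε)
  refine ⟨D₁ + D₂ + C * (m + 1), ?_⟩
  intro D hD X Y hX hY
  have hDle : D ≤ H * D ^ e₀ := by
    calc D = D ^ 1 := (pow_one D).symm
      _ ≤ D ^ e₀ := Nat.pow_le_pow_right (by
          have : 0 < C * (m + 1) := by positivity
          omega) he₀
      _ ≤ H * D ^ e₀ := Nat.le_mul_of_pos_left _ (by omega)
  obtain ⟨hXn, hX1⟩ := h1 D (by omega) X hX
  obtain ⟨hYn, hY1⟩ := h2 (H * D ^ e₀) (by omega) Y hY
  have hCle : C * (m + 1) ≤ D := by omega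
  have hCD : C ≤ D := le_trans (Nat.le_mul_of_pos_right _ (by omega)) hCle
  have hsX : ∑ x ∈ X, lw X x = 1 := by
    rw [hX] at hXn ⊢
    exact sum_lw_Kp hXn
  have hsY : ∑ x ∈ Y, lw Y x = 1 := by
    rw [hY] at hYn ⊢
    exact sum_lw_Kp hYn
  have hP := pair_bound (C := C) (D := D) (w := w + 1) (Y := Y) hX (by omega) hMw
    (by omega) hCD
    (fun g hg => ⟨(hX1 g hg).1.trans (by
        have : (C₁ : ℝ) ≤ C := by exact_mod_cast (by omega : C₁ ≤ C)
        gcongr), fun h => (hX1 g hg).2 (le_trans (Nat.mul_le_mul_right _ (by omega)) h)⟩)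
    (fun g hg => ⟨(hY1 g hg).1.trans (by
        have : (C₂ : ℝ) ≤ C := by exact_mod_cast (by omega : C₂ ≤ C)
        gcongr), fun h => (hY1 g hg).2
          ((Nat.mul_le_mul_right _ (by omega : C₂ ≤ C)).trans (h.trans hDle))⟩)
  set P := ∑ a ∈ X, lw X a * ∑ b ∈ Y, lw Y b * ind (¬ Nat.Coprime a b) with hPdef
  -- union bound
  have h3 : ex j X (fun u => ex k Y (fun y => ind (¬ Nat.Coprime (∏ i, u i) (∏ i, y i)))) ≤
      J * P := by
    have h4 : ∀ (u : Fin j → ℕ) (y : Fin k → ℕ), ind (¬ Nat.Coprime (∏ i, u i) (∏ i, y i)) ≤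
        ∑ i : Fin j, ∑ l : Fin k, ind (¬ Nat.Coprime (u i) (y l)) := by
      intro u y
      by_cases h : Nat.Coprime (∏ i, u i) (∏ i, y i)
      · rw [ind_neg (fun h5 => h5 h)]
        exact sum_nonneg fun i _ => sum_nonneg fun l _ => ind_nonneg _
      · rw [ind_pos h]
        have h5 : ∃ i l, ¬ Nat.Coprime (u i) (y l) := by
          by_contra hcon
          push Not at hcon
          exact h (Nat.Coprime.prod_left fun i _ => Nat.Coprime.prod_right fun l _ => hcon i l)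
        obtain ⟨i, l, hil⟩ := h5
        calc (1 : ℝ) = ind (¬ Nat.Coprime (u i) (y l)) := (ind_pos hil).symm
          _ ≤ ∑ l : Fin k, ind (¬ Nat.Coprime (u i) (y l)) :=
              single_le_sum (f := fun l => ind (¬ Nat.Coprime (u i) (y l)))
                (fun l _ => ind_nonneg _) (mem_univ l)
          _ ≤ _ := single_le_sum (f := fun i => ∑ l : Fin k, ind (¬ Nat.Coprime (u i) (y l)))
                (fun i _ => sum_nonneg fun l _ => ind_nonneg _) (mem_univ i)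
    have h5 : ∀ u : Fin j → ℕ, ex k Y (fun y => ind (¬ Nat.Coprime (∏ i, u i) (∏ i, y i))) ≤
        ∑ i : Fin j, ∑ _l : Fin k, ∑ b ∈ Y, lw Y b * ind (¬ Nat.Coprime (u i) b) := by
      intro u
      refine (ex_mono fun y _ => h4 u y).trans (le_of_eq ?_)
      rw [ex_sum]
      refine sum_congr rfl fun i _ => ?_
      rw [ex_sum]
      refine sum_congr rfl fun l _ => ?_
      exact ex_coord hsY l (fun b => ind (¬ Nat.Coprime (u i) b))
    refine (ex_mono fun u _ => h5 u).trans (le_of_eq ?_)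
    rw [ex_sum]
    have h6 : ∀ i : Fin j, ex j X (fun u => ∑ _l : Fin k, ∑ b ∈ Y,
        lw Y b * ind (¬ Nat.Coprime (u i) b)) = (k : ℝ) * P := by
      intro i
      rw [ex_sum]
      have h7 : ex j X (fun u => ∑ b ∈ Y, lw Y b * ind (¬ Nat.Coprime (u i) b)) = P :=
        ex_coord hsX i (fun a => ∑ b ∈ Y, lw Y b * ind (¬ Nat.Coprime a b))
      simp_rw [h7]
      rw [sum_const, card_univ, Fintype.card_fin, nsmul_eq_mul]
    simp_rw [h6]
    rw [sum_const, card_univ, Fintype.card_fin, nsmul_eq_mul, hJ]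
    ring
  refine h3.trans ?_
  have hw' : (0 : ℝ) < (w + 1 : ℕ) := by positivity
  have hm1 : m + 1 ≤ D / C := (Nat.le_div_iff_mul_le (by omega)).2 (by
    rw [mul_comm]
    exact hCle)
  have hm2 : (m : ℝ) < ((D / C : ℕ) : ℝ) := by exact_mod_cast hm1
  have hm0 : (0 : ℝ) < ((D / C : ℕ) : ℝ) := lt_of_le_of_lt (by positivity) hm2
  have h8 : J * (4 / ((w + 1 : ℕ) : ℝ)) ≤ ε / 2 := by
    rw [← mul_div_assoc, div_le_iff₀ hw']
    rw [div_lt_iff₀ hε] at hw
    push_cast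
    nlinarith
  have h9 : J * ((C : ℝ) ^ 2 / ((D / C : ℕ) : ℝ)) ≤ ε / 2 := by
    rw [← mul_div_assoc, div_le_iff₀ hm0]
    rw [div_lt_iff₀ hε] at hm
    nlinarith
  calc J * P ≤ J * (4 / ((w + 1 : ℕ) : ℝ) + (C : ℝ) ^ 2 / ((D / C : ℕ) : ℝ)) :=
        mul_le_mul_of_nonneg_left hP hJ0
    _ = J * (4 / ((w + 1 : ℕ) : ℝ)) + J * ((C : ℝ) ^ 2 / ((D / C : ℕ) : ℝ)) := by ring
    _ ≤ ε := by linarith

end Pool.Agent.T9h84.QD
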