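import Pool.Agent.T9h57.QD.Spec

/-!
# Vectors of rational numbers; continuity of the single valued polylogarithm
-/

set_option autoImplicit false

namespace Pool.Agent.T9h84.QD

open Finset
open Pool.Agent.T9h57.QD

theorem vn_mul {a b : ℕ} (ha : a ≠ 0) (hb : b ≠ 0) : vn (a * b) = vn a + vn b := by
  ext p
  simp only [vn, Finsupp.mapRange_apply, Finsupp.coe_add, Pi.add_apply,
    Nat.factorization_mul ha hb]
  push_cast
  rfl

theorem vn_not_prime {n p : ℕ} (hp : ¬ p.Prime) : vn n p = 0 := by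
  simp only [vn, Finsupp.mapRange_apply]
  rw [Nat.factorization_eq_zero_of_not_prime n hp]
  norm_num

theorem vn_prime {p : ℕ} (hp : p.Prime) : vn p = Finsupp.single p 1 := by
  rw [vn, Nat.Prime.factorization hp, Finsupp.mapRange_single]
  norm_num

theorem vn_log (n : ℕ) : (vn n).sum (fun p c => c * Real.log p) = Real.log n := by
  rw [vn, Finsupp.sum_mapRange_index (by simp), Real.log_nat_eq_sum_factorization]

theorem vq_cross {x : ℚ} {a b : ℕ} (ha : a ≠ 0) (hb : b ≠ 0)
    (h : x.num.natAbs * b = a * x.den) (hx : x ≠ 0) : vq x = vn a - vn b := by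
  have h1 : x.num.natAbs ≠ 0 := Int.natAbs_ne_zero.2 (Rat.num_ne_zero.2 hx)
  have h2 := congrArg vn h
  rw [vn_mul h1 hb, vn_mul ha x.den_nz] at h2
  rw [vq, sub_eq_sub_iff_add_eq_add]
  exact h2

theorem vqArith : VqArith := by
  refine ⟨fun a b ha hb => vn_mul ha hb, ?_, ?_, ?_, fun p hp => vn_prime hp,
    fun n p hp => vn_not_prime hp, fun n _ => vn_log n⟩
  · intro a b ha hb
    have har : (a : ℚ) ≠ 0 := by exact_mod_cast ha
    have hbr : (b : ℚ) ≠ 0 := by exact_mod_cast hb
    set x : ℚ := (a : ℚ) / b with hx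
    have hx0 : x ≠ 0 := div_ne_zero har hbr
    refine vq_cross ha hb ?_ hx0
    have h1 : (x.num : ℚ) * b = a * x.den := by
      have h2 : (x.num : ℚ) / x.den = a / b := by rw [Rat.num_div_den]
      have h3 : (x.den : ℚ) ≠ 0 := by exact_mod_cast x.den_nz
      field_simp at h2
      linarith
    have h4 : x.num * (b : ℤ) = (a : ℤ) * x.den := by exact_mod_cast h1
    have h5 := congrArg Int.natAbs h4
    rw [Int.natAbs_mul, Int.natAbs_mul, Int.natAbs_natCast, Int.natAbs_natCast,
      Int.natAbs_natCast] at h5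
    exact h5
  · intro x
    rw [vq, vq, Rat.neg_num, Rat.neg_den, Int.natAbs_neg]
  · intro x y hx hy
    have hxn : x.num.natAbs ≠ 0 := Int.natAbs_ne_zero.2 (Rat.num_ne_zero.2 hx)
    have hyn : y.num.natAbs ≠ 0 := Int.natAbs_ne_zero.2 (Rat.num_ne_zero.2 hy)
    have h1 := Rat.mul_num_den' x y
    have h2 := congrArg Int.natAbs h1
    simp only [Int.natAbs_mul, Int.natAbs_natCast] at h2
    rw [vq_cross (x := x * y) (a := x.num.natAbs * y.num.natAbs) (b := x.den * y.den)
      (mul_ne_zero hxn hyn) (mul_ne_zero x.den_nz y.den_nz) (by rw [← mul_assoc]; exact h2)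
      (mul_ne_zero hx hy), vn_mul hxn hyn, vn_mul x.den_nz y.den_nz, vq, vq]
    abel

theorem lir_cont (s : ℕ) : ContinuousOn (Lir s) (Set.Ioo (-1) 1) := by
  intro x hx
  obtain ⟨r, hr1, hr2⟩ := exists_between (abs_lt.2 ⟨hx.1, hx.2⟩)
  have hr0 : 0 ≤ r := (abs_nonneg x).trans hr1.le
  have h : ContinuousOn (Lir s) (Set.Icc (-r) r) := by
    unfold Lir
    refine continuousOn_tsum (u := fun k => r ^ (k + 1)) (fun k => ?_) ?_ ?_
    · exact ((continuous_pow (k + 1)).div_const _).continuousOn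
    · simp_rw [pow_succ]
      exact (summable_geometric_of_lt_one hr0 hr2).mul_right r
    · intro k y hy
      have h1 : |y| ≤ r := abs_le.2 hy
      have h2 : (1 : ℝ) ≤ ((k : ℝ) + 1) ^ s := one_le_pow₀ (by
        have : (0 : ℝ) ≤ k := Nat.cast_nonneg k
        linarith)
      rw [norm_div, norm_pow, Real.norm_eq_abs, Real.norm_eq_abs,
        abs_of_nonneg (by linarith : (0 : ℝ) ≤ ((k : ℝ) + 1) ^ s)]
      calc |y| ^ (k + 1) / ((k : ℝ) + 1) ^ s ≤ |y| ^ (k + 1) / 1 :=
            div_le_div_of_nonneg_left (by positivity) one_pos h2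
        _ = |y| ^ (k + 1) := div_one _
        _ ≤ r ^ (k + 1) := pow_le_pow_left₀ (abs_nonneg y) h1 _
  have h2 := abs_lt.1 hr1
  exact (h.continuousAt (Icc_mem_nhds h2.1 h2.2)).continuousWithinAt

theorem lsvCont : LsvCont := by
  intro n _ _
  unfold Lsv
  refine continuousOn_finsetSum _ fun k _ => ?_
  refine ContinuousOn.mul (ContinuousOn.mul continuousOn_const (ContinuousOn.pow ?_ k)) ?_
  · refine ContinuousOn.log continuous_abs.continuousOn fun x hx => ?_
    exact abs_ne_zero.2 hx.2.ne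
  · exact (lir_cont (n - k)).mono (Set.Ioo_subset_Ioo_right (by norm_num))

end Pool.Agent.T9h84.QD
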